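import Mathlib

/-!
# The normal form of a cuspidal edge: statements (stubs HC-*)

`front f = (f_p, f_q, f - p f_p - q f_q)` for a function `f (p, q)` with a fold of the Hessian is
equivalent, as a germ, to `(s, t ^ 2, t ^ 3)`.
-/

open Set Filter Topology MeasureTheory
open scoped ContDiff

namespace Pool.Agent.H81.HC

noncomputable section

/-- smooth germ: `f` is `C^∞` at all points of a neighbourhood of `a` -/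
def Sm {E F : Type*} [NormedAddCommGroup E] [NormedSpace ℝ E] [NormedAddCommGroup F]
    [NormedSpace ℝ F] (f : E → F) (a : E) : Prop := ∀ᶠ x in 𝓝 a, ContDiffAt ℝ ∞ f x

/-- partial derivative in the first variable -/
def D1 (f : ℝ × ℝ → ℝ) (x : ℝ × ℝ) : ℝ := fderiv ℝ f x (1, 0)

/-- partial derivative in the second variable -/
def D2 (f : ℝ × ℝ → ℝ) (x : ℝ × ℝ) : ℝ := fderiv ℝ f x (0, 1)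

/-- the plane of frequencies -/
abbrev V2 := EuclideanSpace ℝ (Fin 2)

/-- `KER`: a smooth function `F 0` on the line with `F 0 (x ^ 2) = cos x` all of whose derivatives
are bounded. -/
def S_KER : Prop :=
  ∃ F : ℕ → ℝ → ℝ, (∀ k z, HasDerivAt (F k) (F (k + 1) z) z) ∧ (∀ k, ∃ M, ∀ z, |F k z| ≤ M) ∧
    ∀ x, F 0 (x ^ 2) = Real.cos x

/-- `INT`: smoothness of an oscillatory integral -/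
def S_INT : Prop :=
  ∀ F : ℕ → ℝ → ℝ, (∀ k z, HasDerivAt (F k) (F (k + 1) z) z) → (∀ k, ∃ M, ∀ z, |F k z| ≤ M) →
    ∀ u : V2 → ℂ, Continuous u → (∀ n : ℕ, Integrable (fun v => ‖v‖ ^ n * ‖u v‖)) →
      ∀ k, ContDiff ℝ ∞ (fun p : ℝ × ℝ => ∫ v : V2,
        Complex.exp (2 * Real.pi * Complex.I * p.1 * v 0) *
          (F k ((2 * Real.pi * v 1) ^ 2 * p.2) : ℂ) * u v)

/-- `WHI`: Whitney's decomposition into even and odd part, with a parameter, compact support -/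
def S_WHI : Prop :=
  ∀ φ : ℝ × ℝ → ℝ, ContDiff ℝ ∞ φ → HasCompactSupport φ → ∃ A B : ℝ × ℝ → ℝ,
    ContDiff ℝ ∞ A ∧ ContDiff ℝ ∞ B ∧ ∀ a t : ℝ, φ (a, t) = A (a, t ^ 2) + t * B (a, t ^ 2)

/-- `GER`: the same for germs -/
def S_GER : Prop :=
  ∀ φ : ℝ × ℝ → ℝ, Sm φ 0 → ∃ A B : ℝ × ℝ → ℝ, Sm A 0 ∧ Sm B 0 ∧
    ∀ᶠ p in 𝓝 (0 : ℝ × ℝ), φ p = A (p.1, p.2 ^ 2) + p.2 * B (p.1, p.2 ^ 2)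

/-- `HAD`: Hadamard's lemma with a parameter -/
def S_HAD : Prop :=
  ∀ F : ℝ × ℝ → ℝ, Sm F 0 → (∀ᶠ s in 𝓝 (0 : ℝ), F (s, 0) = 0) → ∃ G : ℝ × ℝ → ℝ, Sm G 0 ∧
    ∀ᶠ p in 𝓝 (0 : ℝ × ℝ), F p = p.2 * G p

/-- `FIB`: inverse function theorem for `(s, q) ↦ (s, T (s, q))` -/
def S_FIB : Prop :=
  ∀ T : ℝ × ℝ → ℝ, Sm T 0 → T 0 = 0 → D2 T 0 ≠ 0 → ∃ W : ℝ × ℝ → ℝ, Sm W 0 ∧ W 0 = 0 ∧
    (∀ᶠ y in 𝓝 (0 : ℝ × ℝ), T (y.1, W y) = y.2) ∧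
    (∀ᶠ x in 𝓝 (0 : ℝ × ℝ), W (x.1, T x) = x.2) ∧ D2 W 0 = (D2 T 0)⁻¹

/-- `LEG`: the first coordinate of the front as a coordinate (partial Legendre transform) -/
def S_LEG : Prop :=
  ∀ f : ℝ × ℝ → ℝ, Sm f 0 → D1 (D1 f) 0 ≠ 0 → D2 (D1 f) 0 = 0 → D2 (D2 f) 0 = 0 →
    D2 (D2 (D2 f)) 0 ≠ 0 → ∃ P U V : ℝ × ℝ → ℝ, Sm P 0 ∧ Sm U 0 ∧ Sm V 0 ∧ P 0 = 0 ∧
      D1 P 0 ≠ 0 ∧ (∀ᶠ y in 𝓝 (0 : ℝ × ℝ), D1 f (P y, y.2) = D1 f 0 + y.1) ∧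
      (∀ᶠ y in 𝓝 (0 : ℝ × ℝ), U y = D2 f (P y, y.2)) ∧
      (∀ᶠ y in 𝓝 (0 : ℝ × ℝ),
        V y = f (P y, y.2) - P y * D1 f (P y, y.2) - y.2 * D2 f (P y, y.2)) ∧
      (∀ᶠ y in 𝓝 (0 : ℝ × ℝ), D2 V y = -y.2 * D2 U y) ∧ D2 U 0 = 0 ∧ D2 (D2 U) 0 ≠ 0

/-- `FOLD`: the fold coordinate; `Q (s, t) = c (s) + ω (s, t)` where `q = c (s)` is the curve
`U_q = 0`. -/
def S_FOLD : Prop :=
  ∀ U : ℝ × ℝ → ℝ, Sm U 0 → D2 U 0 = 0 → D2 (D2 U) 0 ≠ 0 →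
    ∃ (u0 : ℝ → ℝ) (Q : ℝ × ℝ → ℝ) (ε : ℝ), (ε = 1 ∨ ε = -1) ∧ Sm u0 0 ∧ Sm Q 0 ∧ Q 0 = 0 ∧
      D2 Q 0 ≠ 0 ∧ ∀ᶠ p in 𝓝 (0 : ℝ × ℝ), U (p.1, Q p) = u0 p.1 + ε * p.2 ^ 2

/-- `ODD`: the third coordinate -/
def S_ODD : Prop :=
  ∀ (U V Q : ℝ × ℝ → ℝ) (u0 : ℝ → ℝ) (ε : ℝ), Sm U 0 → Sm V 0 → Sm Q 0 → Sm u0 0 →
    (ε = 1 ∨ ε = -1) → Q 0 = 0 → D2 Q 0 ≠ 0 →
    (∀ᶠ y in 𝓝 (0 : ℝ × ℝ), D2 V y = -y.2 * D2 U y) →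
    (∀ᶠ p in 𝓝 (0 : ℝ × ℝ), U (p.1, Q p) = u0 p.1 + ε * p.2 ^ 2) →
    ∃ A B : ℝ × ℝ → ℝ, Sm A 0 ∧ Sm B 0 ∧ B 0 ≠ 0 ∧
      ∀ᶠ p in 𝓝 (0 : ℝ × ℝ), V (p.1, Q p) = A (p.1, p.2 ^ 2) + p.2 ^ 3 * B (p.1, p.2 ^ 2)

/-- the map `(f_p, f_q, f - p f_p - q f_q)` -/
def front (f : ℝ × ℝ → ℝ) (y : ℝ × ℝ) : ℝ × ℝ × ℝ :=
  (fderiv ℝ f y (1, 0), fderiv ℝ f y (0, 1),
    f y - y.1 * fderiv ℝ f y (1, 0) - y.2 * fderiv ℝ f y (0, 1))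

/-- `NF`: the normal form of the cuspidal edge (final statement of part C) -/
def S_NF : Prop :=
  ∀ f : ℝ × ℝ → ℝ, Sm f 0 → D1 (D1 f) 0 ≠ 0 → D2 (D1 f) 0 = 0 → D2 (D2 f) 0 = 0 →
    D2 (D2 (D2 f)) 0 ≠ 0 →
    ∃ (φ : ℝ × ℝ → ℝ × ℝ) (ψ : ℝ × ℝ × ℝ → ℝ × ℝ × ℝ),
      Sm φ 0 ∧ φ 0 = 0 ∧ Function.Bijective (fderiv ℝ φ 0) ∧
      Sm ψ (front f 0) ∧ Function.Bijective (fderiv ℝ ψ (front f 0)) ∧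
      ∀ᶠ p in 𝓝 (0 : ℝ × ℝ), ψ (front f (φ p)) = (p.1, p.2 ^ 2, p.2 ^ 3)

end

end Pool.Agent.H81.HC
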