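import Mathlib
import Pool.Agent.H81.HC.Stm

/-!
# Smooth germs: closure properties
-/

open Set Filter Topology MeasureTheory
open scoped ContDiff

namespace Pool.Agent.H81.HC

noncomputable section

variable {E F G : Type*} [NormedAddCommGroup E] [NormedSpace ℝ E] [NormedAddCommGroup F]
  [NormedSpace ℝ F] [NormedAddCommGroup G] [NormedSpace ℝ G]

namespace Sm

lemma of_contDiff {f : E → F} (h : ContDiff ℝ ∞ f) (a : E) : Sm f a :=
  Eventually.of_forall fun _ => h.contDiffAt

lemma of_contDiffOn {f : E → F} {U : Set E} (hU : IsOpen U) (h : ContDiffOn ℝ ∞ f U) {a : E}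
    (ha : a ∈ U) : Sm f a := by
  filter_upwards [hU.mem_nhds ha] with x hx
  exact h.contDiffAt (hU.mem_nhds hx)

lemma contDiffAt {f : E → F} {a : E} (h : Sm f a) : ContDiffAt ℝ ∞ f a := h.self_of_nhds

lemma differentiableAt {f : E → F} {a : E} (h : Sm f a) : DifferentiableAt ℝ f a :=
  h.contDiffAt.differentiableAt (by simp)

lemma ev_differentiableAt {f : E → F} {a : E} (h : Sm f a) :
    ∀ᶠ x in 𝓝 a, DifferentiableAt ℝ f x := by
  filter_upwards [h] with x hx using hx.differentiableAt (by simp)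

lemma continuousAt {f : E → F} {a : E} (h : Sm f a) : ContinuousAt f a :=
  h.differentiableAt.continuousAt

lemma ev {f : E → F} {a : E} (h : Sm f a) : ∀ᶠ x in 𝓝 a, Sm f x := by
  have := eventually_eventually_nhds.2 h
  exact this

lemma congr {f g : E → F} {a : E} (h : Sm f a) (e : ∀ᶠ x in 𝓝 a, f x = g x) : Sm g a := by
  filter_upwards [h, eventually_eventually_nhds.2 e] with x hx hx'
  exact hx.congr_of_eventuallyEq (hx'.mono fun y hy => hy.symm)

lemma comp {g : F → G} {f : E → F} {a : E} (hg : Sm g (f a)) (hf : Sm f a) :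
    Sm (fun x => g (f x)) a := by
  have h1 : ∀ᶠ x in 𝓝 a, ContDiffAt ℝ ∞ g (f x) := hf.continuousAt.eventually hg
  filter_upwards [h1, hf] with x hx hx'
  exact hx.comp x hx'

lemma prodMk {f : E → F} {g : E → G} {a : E} (hf : Sm f a) (hg : Sm g a) :
    Sm (fun x => (f x, g x)) a := by
  filter_upwards [hf, hg] with x hx hx' using hx.prodMk hx'

lemma add {f g : E → F} {a : E} (hf : Sm f a) (hg : Sm g a) : Sm (fun x => f x + g x) a := by
  filter_upwards [hf, hg] with x hx hx' using hx.add hx'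

lemma sub {f g : E → F} {a : E} (hf : Sm f a) (hg : Sm g a) : Sm (fun x => f x - g x) a := by
  filter_upwards [hf, hg] with x hx hx' using hx.sub hx'

lemma neg {f : E → F} {a : E} (hf : Sm f a) : Sm (fun x => -f x) a := by
  filter_upwards [hf] with x hx using hx.neg

lemma mul {f g : E → ℝ} {a : E} (hf : Sm f a) (hg : Sm g a) : Sm (fun x => f x * g x) a := by
  filter_upwards [hf, hg] with x hx hx' using hx.mul hx'

lemma pow {f : E → ℝ} {a : E} (hf : Sm f a) (n : ℕ) : Sm (fun x => f x ^ n) a := by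
  filter_upwards [hf] with x hx using hx.pow n

lemma div {f g : E → ℝ} {a : E} (hf : Sm f a) (hg : Sm g a) (h0 : g a ≠ 0) :
    Sm (fun x => f x / g x) a := by
  filter_upwards [hf, hg, hg.continuousAt.eventually_ne h0] with x hx hx' hx'' using hx.div hx' hx''

lemma sqrt {f : E → ℝ} {a : E} (hf : Sm f a) (h0 : f a ≠ 0) : Sm (fun x => √(f x)) a := by
  filter_upwards [hf, hf.continuousAt.eventually_ne h0] with x hx hx' using hx.sqrt hx'

lemma const (c : F) (a : E) : Sm (fun _ : E => c) a := of_contDiff contDiff_const a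

lemma id (a : E) : Sm (fun x : E => x) a := of_contDiff contDiff_id a

lemma fst (a : E × F) : Sm (fun x : E × F => x.1) a := of_contDiff contDiff_fst a

lemma snd (a : E × F) : Sm (fun x : E × F => x.2) a := of_contDiff contDiff_snd a

lemma fderiv {f : E → F} {a : E} (h : Sm f a) : Sm (fderiv ℝ f) a := by
  filter_upwards [h] with x hx using hx.fderiv_right (by simp)

lemma fderiv_apply {f : E → F} {a : E} (h : Sm f a) (v : E) :
    Sm (fun x => _root_.fderiv ℝ f x v) a := by
  filter_upwards [h.fderiv] with x hx using hx.clm_apply contDiffAt_const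

lemma D1 {f : ℝ × ℝ → ℝ} {a : ℝ × ℝ} (h : Sm f a) : Sm (D1 f) a := h.fderiv_apply _

lemma D2 {f : ℝ × ℝ → ℝ} {a : ℝ × ℝ} (h : Sm f a) : Sm (D2 f) a := h.fderiv_apply _

end Sm

/-- chain rule along a curve in the plane -/
lemma hasDerivAt_pair {f : ℝ × ℝ → ℝ} {g h : ℝ → ℝ} {g' h' t : ℝ}
    (hf : DifferentiableAt ℝ f (g t, h t)) (hg : HasDerivAt g g' t) (hh : HasDerivAt h h' t) :
    HasDerivAt (fun t => f (g t, h t)) (D1 f (g t, h t) * g' + D2 f (g t, h t) * h') t := by
  have h1 : HasDerivAt (fun t => f (g t, h t)) (fderiv ℝ f (g t, h t) (g', h')) t :=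
    hf.hasFDerivAt.comp_hasDerivAt t (hg.prodMk hh)
  have h2 : ((g', h') : ℝ × ℝ) = g' • ((1, 0) : ℝ × ℝ) + h' • ((0, 1) : ℝ × ℝ) := by simp
  rw [h2, map_add, map_smul, map_smul] at h1
  simpa [D1, D2, mul_comm] using h1

lemma hasDerivAt_snd {f : ℝ × ℝ → ℝ} {s t : ℝ} (hf : DifferentiableAt ℝ f (s, t)) :
    HasDerivAt (fun t => f (s, t)) (D2 f (s, t)) t := by
  simpa using hasDerivAt_pair hf (hasDerivAt_const t s) (hasDerivAt_id t)

lemma hasDerivAt_fst {f : ℝ × ℝ → ℝ} {s t : ℝ} (hf : DifferentiableAt ℝ f (s, t)) :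
    HasDerivAt (fun s => f (s, t)) (D1 f (s, t)) s := by
  simpa using hasDerivAt_pair hf (hasDerivAt_id s) (hasDerivAt_const s t)

/-- equality of germs gives equality of the partial derivatives near the point -/
lemma D1_congr {f g : ℝ × ℝ → ℝ} {a : ℝ × ℝ} (h : ∀ᶠ x in 𝓝 a, f x = g x) :
    ∀ᶠ x in 𝓝 a, D1 f x = D1 g x := by
  filter_upwards [eventually_eventually_nhds.2 h] with x hx
  unfold D1
  rw [EventuallyEq.fderiv_eq hx]

lemma D2_congr {f g : ℝ × ℝ → ℝ} {a : ℝ × ℝ} (h : ∀ᶠ x in 𝓝 a, f x = g x) :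
    ∀ᶠ x in 𝓝 a, D2 f x = D2 g x := by
  filter_upwards [eventually_eventually_nhds.2 h] with x hx
  unfold D2
  rw [EventuallyEq.fderiv_eq hx]

/-- `fderiv` in terms of the partial derivatives -/
lemma fderiv_eq_D (f : ℝ × ℝ → ℝ) (x v : ℝ × ℝ) : fderiv ℝ f x v = D1 f x * v.1 + D2 f x * v.2 := by
  have h2 : v = v.1 • ((1, 0) : ℝ × ℝ) + v.2 • ((0, 1) : ℝ × ℝ) := by
    ext <;> simp
  conv_lhs => rw [h2]
  rw [map_add, map_smul, map_smul]
  simp [D1, D2, mul_comm]

end

end Pool.Agent.H81.HC
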