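import Pool.Agent.H81.HC.T.FIB
import Pool.Agent.H81.HC.T.FOLD
import Pool.Agent.H81.HC.T.GER
import Pool.Agent.H81.HC.T.HAD
import Pool.Agent.H81.HC.T.INT
import Pool.Agent.H81.HC.T.KER
import Pool.Agent.H81.HC.T.LEG
import Pool.Agent.H81.HC.T.NF
import Pool.Agent.H81.HC.T.ODD
import Pool.Agent.H81.HC.T.WHI

/-! # The normal form of a cuspidal edge -/

namespace Pool.Agent.H81.HC

theorem nf : S_NF :=
  T.NF.main (T.LEG.main T.FIB.main) (T.FOLD.main T.FIB.main T.HAD.main)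
    (T.ODD.main (T.GER.main (T.WHI.main T.KER.main T.INT.main)) T.HAD.main)

end Pool.Agent.H81.HC
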